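import Pool.Agent.Helper79.TL.Core
import Pool.Agent.Helper31.BrauerLift

/-!
# TL-C1: Brauer characters on the elementary abelian 2-group `R × ⟨z⟩`
-/

set_option autoImplicit false
set_option linter.unusedSectionVars false

open Module
open Pool.Agent.Helper31.Brauer

namespace Pool.Agent.Helper79.TL.C1

section Diag

variable {F : Type} [Field F] {G : Type} [Group G] {V : Type} [AddCommGroup V] [Module F V]
  (ρ : Representation F G V)

/-- simultaneous eigenvectors of commuting involutions span -/
lemma span_top {J : Type} [DecidableEq J] (h2 : (2 : F) ≠ 0) (f : J → G)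
    (hsq : ∀ j, f j * f j = 1) (hcomm : ∀ i j, f i * f j = f j * f i) (s : Finset J) :
    Submodule.span F {u : V | ∀ j ∈ s, ∃ e : ℤ, (e = 1 ∨ e = -1) ∧ ρ (f j) u = (e : F) • u} = ⊤ := by
  induction s using Finset.induction_on with
  | empty => simp
  | insert j s hj ih =>
    rw [eq_top_iff, ← ih, Submodule.span_le]
    intro u hu
    have hu' : ∀ i ∈ s, ∃ e : ℤ, (e = 1 ∨ e = -1) ∧ ρ (f i) u = (e : F) • u := hu
    have key : ∀ c : ℤ, (c = 1 ∨ c = -1) → u + (c : F) • ρ (f j) u ∈
        {u : V | ∀ i ∈ insert j s, ∃ e : ℤ, (e = 1 ∨ e = -1) ∧ ρ (f i) u = (e : F) • u} := by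
      intro c hc i hi
      have hcc : (c : F) * c = 1 := by
        rcases hc with h | h <;> simp [h]
      rcases Finset.mem_insert.1 hi with rfl | hi
      · refine ⟨c, hc, ?_⟩
        rw [map_add, map_smul, ← GPre.rho_mul, hsq, map_one, smul_add, smul_smul, hcc, one_smul,
          add_comm]
        rfl
      · obtain ⟨e, he, hee⟩ := hu' i hi
        refine ⟨e, he, ?_⟩
        rw [map_add, map_smul, ← GPre.rho_mul, hcomm, GPre.rho_mul, hee, map_smul, smul_add,
          smul_comm]
    have h1 := key 1 (Or.inl rfl)
    have h3 := key (-1) (Or.inr rfl)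
    have : u = (2 : F)⁻¹ • ((u + ((1 : ℤ) : F) • ρ (f j) u) + (u + ((-1 : ℤ) : F) • ρ (f j) u)) := by
      push_cast
      rw [one_smul, neg_smul, one_smul]
      have : u + (ρ (f j)) u + (u + -(ρ (f j)) u) = (2 : F) • u := by
        rw [two_smul]; abel
      rw [this, smul_smul, inv_mul_cancel₀ h2, one_smul]
    rw [this]
    exact Submodule.smul_mem _ _ (Submodule.add_mem _ (Submodule.subset_span h1)
      (Submodule.subset_span h3))

/-- a basis of simultaneous eigenvectors -/
lemma exists_basis [FiniteDimensional F V] {J : Type} [Fintype J] [DecidableEq J]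
    (h2 : (2 : F) ≠ 0) (f : J → G)
    (hsq : ∀ j, f j * f j = 1) (hcomm : ∀ i j, f i * f j = f j * f i) :
    ∃ (I : Type) (_ : Fintype I) (_ : DecidableEq I) (b : Basis I F V) (e : I → J → ℤ),
      (∀ i j, e i j = 1 ∨ e i j = -1) ∧ ∀ i j, ρ (f j) (b i) = (e i j : F) • b i := by
  classical
  obtain ⟨b, hbs, hb1, hb2⟩ := exists_linearIndependent F
    {u : V | ∀ j ∈ (Finset.univ : Finset J), ∃ e : ℤ, (e = 1 ∨ e = -1) ∧ ρ (f j) u = (e : F) • u}
  rw [span_top ρ h2 f hsq hcomm] at hb1
  have hfin : Finite ↥b := hb2.finite
  have : Fintype ↥b := Fintype.ofFinite _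
  have hb1' : ⊤ ≤ Submodule.span F (Set.range ((↑) : ↥b → V)) := by
    rw [Subtype.range_coe, hb1]
  let B := Basis.mk hb2 hb1'
  have hm : ∀ (i : ↥b) (j : J), ∃ e : ℤ, (e = 1 ∨ e = -1) ∧ ρ (f j) (i : V) = (e : F) • (i : V) :=
    fun i j => hbs i.2 j (Finset.mem_univ j)
  choose e he hee using hm
  refine ⟨↥b, this, inferInstance, B, e, he, fun i j => ?_⟩
  have : B i = (i : V) := by simp [B]
  rw [this]
  exact hee i j

end Diag

lemma lift_sign {F : Type} [Field F] [CharP F 3] (red : AlgInt →+* F) {e : ℤ}
    (he : e = 1 ∨ e = -1) : lift 3 red (e : F) = (e : ℂ) := by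
  rcases he with rfl | rfl
  · push_cast
    exact lift_one Nat.prime_three red
  · have hr : IsRegularRoot 3 (-1 : AlgInt) := ⟨2, by norm_num, by norm_num⟩
    have := lift_red Nat.prime_three red hr
    rw [map_neg, map_one] at this
    push_cast
    rw [this]
    simp

/-- TL-C1 -/
theorem brauer_Vl {G : Type} [Group G] {F : Type} [Field F] [CharP F 3] (red : AlgInt →+* F)
    {D : GPre G} (hD : D.Good)
    {V : Type} [AddCommGroup V] [Module F V] [FiniteDimensional F V] (ρ : Representation F G V) :
    ∑ a, (brauerValue 3 red ρ (D.r a) - brauerValue 3 red ρ (D.z * D.r a)) =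
      32 * (finrank F ↥(D.Vl ρ) : ℂ) := by
  classical
  have h2 : (2 : F) ≠ 0 := by
    have h3 : ((3 : ℕ) : F) = 0 := (CharP.cast_eq_zero_iff F 3 3).2 dvd_rfl
    intro h
    have : (1 : F) = 0 := by
      have h4 : ((3 : ℕ) : F) = 2 + 1 := by norm_num
      rw [h3, h, zero_add] at h4
      exact h4.symm
    exact one_ne_zero this
  -- injectivity on signs
  have hinj : ∀ {m n : ℤ}, (m = 1 ∨ m = -1) → (n = 1 ∨ n = -1) → (m : F) = (n : F) → m = n := by
    intro m n hm hn h
    rcases hm with rfl | rfl <;> rcases hn with rfl | rfl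
    · rfl
    · exfalso; apply h2; push_cast at h; linear_combination h
    · exfalso; apply h2; push_cast at h; linear_combination -h
    · rfl
  let f : Option (Fin 16) → G := fun o => o.elim D.z D.r
  have hsq : ∀ j, f j * f j = 1 := by
    rintro (_ | a)
    · exact hD.z_sq
    · exact hD.r_sq a
  have hrr : ∀ a b, D.r a * D.r b = D.r b * D.r a := by
    intro a b
    obtain ⟨c, hc⟩ := hD.r_mul a b
    have h1 := hD.r_sq c
    rw [← hc] at h1
    have ha : (D.r a)⁻¹ = D.r a := inv_eq_of_mul_eq_one_left (hD.r_sq a)
    have hb : (D.r b)⁻¹ = D.r b := inv_eq_of_mul_eq_one_left (hD.r_sq b)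
    have h3 : D.r a * D.r b = (D.r a * D.r b)⁻¹ := (inv_eq_of_mul_eq_one_left h1).symm
    rw [h3, mul_inv_rev, ha, hb]
  have hcomm : ∀ i j, f i * f j = f j * f i := by
    rintro (_ | a) (_ | b)
    · rfl
    · exact hD.z_comm _
    · exact (hD.z_comm _).symm
    · exact hrr a b
  obtain ⟨I, _, _, b, e, he, hee⟩ := exists_basis ρ h2 f hsq hcomm
  have hr : ∀ a i, ρ (D.r a) (b i) = (e i (some a) : F) • b i := fun a i => hee i (some a)
  have hz : ∀ i, ρ D.z (b i) = (e i none : F) • b i := fun i => hee i none
  have hv1 : ∀ a, brauerValue 3 red ρ (D.r a) = ∑ i, (e i (some a) : ℂ) := by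
    intro a
    rw [brauerValue_of_basis red ρ b (D.r a) (fun i => (e i (some a) : F)) (hr a)]
    exact Finset.sum_congr rfl fun i _ => lift_sign red (he i _)
  have hv2 : ∀ a, brauerValue 3 red ρ (D.z * D.r a) =
      ∑ i, ((e i none * e i (some a) : ℤ) : ℂ) := by
    intro a
    rw [brauerValue_of_basis red ρ b (D.z * D.r a) (fun i => ((e i none * e i (some a) : ℤ) : F))
      (fun i => by
        rw [GPre.rho_mul, hr, map_smul, hz, smul_smul]
        push_cast
        rw [mul_comm])]
    refine Finset.sum_congr rfl fun i _ => lift_sign red ?_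
    rcases he i none with h | h <;> rcases he i (some a) with h' | h' <;> simp [h, h']
  -- the multiplicativity of the signs
  have hmul : ∀ i a a' c, D.r a * D.r a' = D.r c → e i (some a) * e i (some a') = e i (some c) := by
    intro i a a' c hc
    apply hinj
    · rcases he i (some a) with h | h <;> rcases he i (some a') with h' | h' <;> simp [h, h']
    · exact he i _
    · have h1 : ρ (D.r a * D.r a') (b i) = ((e i (some a) * e i (some a') : ℤ) : F) • b i := by
        rw [GPre.rho_mul, hr, map_smul, hr, smul_smul]
        push_cast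
        rw [mul_comm]
      rw [hc, hr] at h1
      exact ((smul_left_injective F (b.ne_zero i)) h1).symm
  let P : I → Prop := fun i => (∀ a, e i (some a) = 1) ∧ e i none = -1
  have hsum : ∀ i, (∑ a, (e i (some a) - e i none * e i (some a)) : ℤ) = if P i then 32 else 0 := by
    intro i
    by_cases hall : ∀ a, e i (some a) = 1
    · simp only [hall, mul_one, Finset.sum_const, Finset.card_univ, Fintype.card_fin]
      rcases he i none with h | h
      · have hP : ¬ P i := fun hP => by have := hP.2; rw [h] at this; norm_num at this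
        rw [if_neg hP, h]; norm_num
      · have hP : P i := ⟨hall, h⟩
        rw [if_pos hP, h]; norm_num
    · have hP : ¬ P i := fun hP => hall hP.1
      rw [if_neg hP]
      push Not at hall
      obtain ⟨a, ha⟩ := hall
      have ha' : e i (some a) = -1 := (he i (some a)).resolve_left ha
      choose c hc using hD.r_mul a
      have hcinj : Function.Injective c := fun x y h => by
        apply hD.r_inj
        have h1 : D.r a * D.r x = D.r a * D.r y := by rw [hc, hc, h]
        exact mul_left_cancel h1
      have h1 : ∑ x, e i (some x) = - ∑ x, e i (some x) := by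
        calc ∑ x, e i (some x) = ∑ x, e i (some (c x)) :=
              ((Equiv.ofBijective c (Finite.injective_iff_bijective.1 hcinj)).sum_comp
                (fun x => e i (some x))).symm
          _ = ∑ x, e i (some a) * e i (some x) :=
              Finset.sum_congr rfl fun x _ => (hmul i a x (c x) (hc x)).symm
          _ = - ∑ x, e i (some x) := by
              rw [ha', ← Finset.mul_sum]; ring
      have h0 : ∑ x, e i (some x) = 0 := by linarith
      rw [Finset.sum_sub_distrib, ← Finset.mul_sum, h0]
      ring
  -- the dimension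
  have hspan : D.Vl ρ = Submodule.span F (Set.range (fun i : {i // P i} => b i)) := by
    apply le_antisymm
    · intro v hv
      rw [← b.sum_repr v]
      refine Submodule.sum_mem _ fun i _ => ?_
      by_cases hi : b.repr v i = 0
      · rw [hi, zero_smul]; exact Submodule.zero_mem _
      · have hc : ∀ (g : G) (ε : I → F), (∀ i, ρ g (b i) = ε i • b i) → ∀ d : F, ρ g v = d • v →
            ε i = d := by
          intro g ε hε d hd
          have h1 : b.repr (ρ g v) i = ε i * b.repr v i := by
            conv_lhs => rw [← b.sum_repr v]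
            rw [map_sum, map_sum, Finsupp.finsetSum_apply]
            rw [Finset.sum_eq_single i]
            · rw [map_smul, hε, map_smul, map_smul, Basis.repr_self, Finsupp.smul_apply,
                Finsupp.smul_apply, Finsupp.single_eq_same, smul_eq_mul, smul_eq_mul, mul_one,
                mul_comm]
            · intro j _ hj
              rw [map_smul, hε, map_smul, map_smul, Basis.repr_self, Finsupp.smul_apply,
                Finsupp.smul_apply, Finsupp.single_eq_of_ne (Ne.symm hj), smul_zero, smul_zero]
            · intro h; exact absurd (Finset.mem_univ _) h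
          rw [hd, map_smul, Finsupp.smul_apply, smul_eq_mul] at h1
          exact (mul_right_cancel₀ hi h1).symm
        have hPi : P i := by
          refine ⟨fun a => ?_, ?_⟩
          · apply hinj (he i _) (Or.inl rfl)
            rw [hc (D.r a) (fun i => (e i (some a) : F)) (hr a) 1 (by rw [hv.1 a, one_smul])]
            simp
          · apply hinj (he i _) (Or.inr rfl)
            rw [hc D.z (fun i => (e i none : F)) hz (-1) (by rw [hv.2, neg_smul, one_smul])]
            simp
        exact Submodule.smul_mem _ _ (Submodule.subset_span ⟨⟨i, hPi⟩, rfl⟩)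
    · rw [Submodule.span_le]
      rintro _ ⟨⟨i, hi⟩, rfl⟩
      refine ⟨fun a => ?_, ?_⟩
      · show ρ (D.r a) (b i) = b i
        rw [hr, hi.1 a]; simp
      · show ρ D.z (b i) = - b i
        rw [hz, hi.2]; simp
  have hfr : finrank F ↥(D.Vl ρ) = Fintype.card {i // P i} := by
    rw [hspan]
    exact finrank_span_eq_card (b.linearIndependent.comp _ Subtype.val_injective)
  rw [hfr]
  simp_rw [hv1, hv2]
  calc ∑ a, ((∑ i, (e i (some a) : ℂ)) - ∑ i, ((e i none * e i (some a) : ℤ) : ℂ))
      = ((∑ i, ∑ a, (e i (some a) - e i none * e i (some a)) : ℤ) : ℂ) := by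
        rw [Finset.sum_comm]
        push_cast
        refine Finset.sum_congr rfl fun a _ => ?_
        rw [Finset.sum_sub_distrib]
    _ = ((∑ i, (if P i then 32 else 0) : ℤ) : ℂ) := by
        rw [Finset.sum_congr rfl fun i _ => hsum i]
    _ = 32 * (Fintype.card {i // P i} : ℂ) := by
        rw [← Finset.sum_filter, Finset.sum_const, Fintype.card_subtype, nsmul_eq_mul, mul_comm]
        push_cast
        rfl

end Pool.Agent.Helper79.TL.C1

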